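import Pool.Agent.Lib.MP_182bbb_co.AR.Iface

/-!
# MP_182bbb_co, board ar: module STRICT (basic facts on strict trees)
-/

open Finset MP_182bbb_co.H5

namespace MP_182bbb_co.AR

theorem strict : STRICT_S := by
  intro α _ r H hH
  obtain ⟨k, e, hinj, rfl, hcard, hstep⟩ := hH
  have hne : (univ.image e : Finset (Finset α)).Nonempty := ⟨e 0, mem_image_of_mem _ (mem_univ _)⟩
  have hunif : IsUniform r (univ.image e) := by
    intro s hs
    obtain ⟨i, -, rfl⟩ := mem_image.1 hs
    exact hcard i
  refine ⟨hne, hunif, ⟨k + 1, e, hinj, rfl, fun i hi => (hstep i hi).2⟩, ?_⟩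
  have hcH : (univ.image e : Finset (Finset α)).card = k + 1 := by
    rw [card_image_of_injective _ hinj, card_univ, Fintype.card_fin]
  have hU : ∀ n : ℕ, ∀ hn : n < k + 1,
      ((Finset.Iic (⟨n, hn⟩ : Fin (k + 1))).biUnion e).card = r + n := by
    intro n
    induction n with
    | zero =>
      intro hn
      have h1 : (Finset.Iic (⟨0, hn⟩ : Fin (k + 1))) = {⟨0, hn⟩} := by
        ext j
        simp only [Finset.mem_Iic, Finset.mem_singleton, Fin.le_def, Fin.ext_iff]
        omega
      rw [h1, singleton_biUnion, hcard]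
      rfl
    | succ n ih =>
      intro hn
      have h0 := ih (by omega)
      have h1 : (Finset.Iic (⟨n + 1, hn⟩ : Fin (k + 1))) =
          insert ⟨n + 1, hn⟩ (Finset.Iio ⟨n + 1, hn⟩) := by
        ext j
        simp only [Finset.mem_Iic, Finset.mem_insert, Finset.mem_Iio, Fin.le_def, Fin.lt_def,
          Fin.ext_iff]
        omega
      have h2 : (Finset.Iio (⟨n + 1, hn⟩ : Fin (k + 1))) =
          Finset.Iic (⟨n, by omega⟩ : Fin (k + 1)) := by
        ext j
        simp only [Finset.mem_Iic, Finset.mem_Iio, Fin.le_def, Fin.lt_def]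
        omega
      have h3 := (hstep ⟨n + 1, hn⟩ (Nat.succ_pos n)).1
      rw [h1, biUnion_insert]
      rw [h2] at h3 ⊢
      have h4 := card_union_add_card_inter (e ⟨n + 1, hn⟩)
        ((Finset.Iic (⟨n, by omega⟩ : Fin (k + 1))).biUnion e)
      rw [hcard, h0] at h4
      omega
  have hall : verts (univ.image e) = (Finset.Iic (⟨k, Nat.lt_succ_self k⟩ : Fin (k + 1))).biUnion e := by
    ext x
    rw [mem_verts, mem_biUnion]
    constructor
    · rintro ⟨s, hs, hx⟩
      obtain ⟨i, -, rfl⟩ := mem_image.1 hs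
      exact ⟨i, Finset.mem_Iic.2 (Nat.lt_succ_iff.1 i.2), hx⟩
    · rintro ⟨i, -, hx⟩
      exact ⟨e i, mem_image_of_mem _ (mem_univ _), hx⟩
  rw [hall, hU, hcH]
  omega

end MP_182bbb_co.AR
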